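import Pool.Agent.Helper128.AutDiv.Main

set_option autoImplicit false

namespace Pool.Agent.Helper128.OddIndex

/-- Property (O): for every nontrivial 2-subgroup `P` of `G` the index of the normalizer of `P` is odd. -/
def PropertyO (G : Type) [Group G] : Prop :=
  ∀ P : Subgroup G, P ≠ ⊥ → IsPGroup 2 P → Odd (Subgroup.normalizer (P : Set G)).index

/-- Every subgroup of `S` is normal in `S`. -/
def Ded {G : Type} [Group G] (S : Subgroup G) : Prop :=
  ∀ H : Subgroup G, H ≤ S → ∀ s ∈ S, ∀ h ∈ H, s * h * s⁻¹ ∈ H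

/-- `2`-constrained finite groups: with `O = O(G)` the largest normal subgroup of odd order and
`R/O = O_2(G/O)`, the centralizer of `R/O` in `G/O` is contained in `R/O`. -/
def TwoConstrained (G : Type) [Group G] : Prop :=
  ∀ O R : Subgroup G, IsGreatest {N : Subgroup G | N.Normal ∧ Odd (Nat.card N)} O →
    IsGreatest {N : Subgroup G | N.Normal ∧ O ≤ N ∧ ∃ n : ℕ, O.relIndex N = 2 ^ n} R →
    ∀ g : G, (∀ r ∈ R, g * r * g⁻¹ * r⁻¹ ∈ O) → g ∈ R

/-- the Frattini subgroup of `R` as a subgroup of `G` -/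
def Phi {G : Type} [Group G] (R : Subgroup G) : Subgroup G := (frattini R).map R.subtype


section a_conj


theorem exists_conj (G : Type) [Group G] [Finite G] (hO : PropertyO G) (P : Subgroup G)
    (hP : IsPGroup 2 P) (S : Sylow 2 G) :
    ∃ g : G, (∀ h ∈ P, g * h * g⁻¹ ∈ (S : Subgroup G)) ∧
      ∀ s ∈ (S : Subgroup G), ∀ h ∈ P, (g⁻¹ * s * g) * h * (g⁻¹ * s * g)⁻¹ ∈ P := by
  haveI : Fact (Nat.Prime 2) := ⟨Nat.prime_two⟩
  by_cases hbot : P = ⊥
  · subst hbot
    refine ⟨1, ?_, ?_⟩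
    · intro h hh
      rw [Subgroup.mem_bot] at hh
      subst hh
      have h1 : (1 : G) * 1 * 1⁻¹ = 1 := by group
      rw [h1]
      exact Subgroup.one_mem _
    · intro s _ h hh
      rw [Subgroup.mem_bot] at hh ⊢
      subst hh
      group
  have hodd := hO P hbot hP
  set N := Subgroup.normalizer (P : Set G) with hN
  have hPN : P ≤ N := Subgroup.le_normalizer
  have hP' : IsPGroup 2 (P.subgroupOf N) := hP.comap_subtype
  obtain ⟨T0, hT0⟩ := hP'.exists_le_sylow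
  have hcard : Nat.card ((T0 : Subgroup N).map N.subtype : Subgroup G) =
      2 ^ (Nat.card G).factorization 2 := by
    have h1 : Nat.card ((T0 : Subgroup N).map N.subtype : Subgroup G) = Nat.card T0 :=
      Subgroup.card_map_of_injective N.subtype_injective
    rw [h1, Sylow.card_eq_multiplicity T0]
    congr 1
    have h2 := N.card_mul_index
    rw [← h2, Nat.factorization_mul Nat.card_pos.ne' N.index_ne_zero_of_finite, Finsupp.add_apply]
    have h3 : N.index.factorization 2 = 0 := by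
      apply Nat.factorization_eq_zero_of_not_dvd
      intro h4
      exact (Nat.not_even_iff_odd.2 hodd) (even_iff_two_dvd.2 h4)
    rw [h3, add_zero]
  obtain ⟨g, hg⟩ := MulAction.exists_smul_eq G
    (Sylow.ofCard ((T0 : Subgroup N).map N.subtype) hcard) S
  have hgS : ∀ x, x ∈ (S : Subgroup G) ↔ g⁻¹ * x * g ∈ (T0 : Subgroup N).map N.subtype := by
    intro x
    rw [← hg, Sylow.coe_subgroup_smul, Subgroup.mem_pointwise_smul_iff_inv_smul_mem]
    have h5 : (MulAut.conj g)⁻¹ • x = g⁻¹ * x * g := by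
      rw [← map_inv]
      simp [MulAut.smul_def, MulAut.conj_apply]
    rw [h5]
    rfl
  have hPT : P ≤ (T0 : Subgroup N).map N.subtype := by
    intro h hh
    refine Subgroup.mem_map.2 ⟨⟨h, hPN hh⟩, hT0 ?_, rfl⟩
    exact hh
  refine ⟨g, ?_, ?_⟩
  · intro h hh
    rw [hgS]
    have h6 : g⁻¹ * (g * h * g⁻¹) * g = h := by group
    rw [h6]
    exact hPT hh
  · intro s hs h hh
    rw [hgS] at hs
    obtain ⟨t, -, ht⟩ := Subgroup.mem_map.1 hs
    rw [← ht]
    have h7 : (t : G) ∈ N := t.2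
    exact (Subgroup.mem_normalizer_iff.1 h7 h).1 hh


end a_conj

section a_ded


theorem propO_of_ded (G : Type) [Group G] [Finite G] (h : ∀ S : Sylow 2 G, Ded (S : Subgroup G)) :
    PropertyO G := by
  intro P _ hP
  obtain ⟨S, hS⟩ := hP.exists_le_sylow
  have hle : (S : Subgroup G) ≤ Subgroup.normalizer (P : Set G) := by
    intro s hs
    rw [Subgroup.mem_normalizer_iff]
    intro x
    constructor
    · intro hx
      exact h S P hS s hs x hx
    · intro hx
      have h1 := h S P hS s⁻¹ (inv_mem hs) _ hx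
      have h2 : s⁻¹ * (s * x * s⁻¹) * s⁻¹⁻¹ = x := by group
      rwa [h2] at h1
  have hdvd := Subgroup.index_dvd_of_le hle
  have hnd : ¬ 2 ∣ (S : Subgroup G).index := S.not_dvd_index
  rw [← Nat.not_even_iff_odd, even_iff_two_dvd]
  intro h2
  exact hnd (h2.trans hdvd)



end a_ded

section a_quot


theorem propO_quot (G : Type) [Group G] [Finite G] (hO : PropertyO G) (N : Subgroup G) [N.Normal] :
    PropertyO (G ⧸ N) := by
  intro P' hP' h2
  set q := QuotientGroup.mk' N with hq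
  have hqs : Function.Surjective q := QuotientGroup.mk'_surjective N
  obtain ⟨T⟩ : Nonempty (Sylow 2 (P'.comap q)) := inferInstance
  have hfs : Function.Surjective (q.subgroupComap P') :=
    MonoidHom.subgroupComap_surjective_of_surjective q P' hqs
  set P : Subgroup G := (T : Subgroup (P'.comap q)).map (P'.comap q).subtype with hP
  have hPp : IsPGroup 2 P := T.2.map _
  have hTtop : (T : Subgroup (P'.comap q)).map (q.subgroupComap P') = ⊤ := by
    have hidx : ((T : Subgroup (P'.comap q)).map (q.subgroupComap P')).index ∣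
        (T : Subgroup (P'.comap q)).index := Subgroup.index_map_dvd _ hfs
    have hnd := T.not_dvd_index
    obtain ⟨k, hk⟩ := (IsPGroup.iff_card.mp h2)
    have hd2 : ((T : Subgroup (P'.comap q)).map (q.subgroupComap P')).index ∣ 2 ^ k := by
      rw [← hk]
      exact Subgroup.index_dvd_card _
    obtain ⟨j, _, hj⟩ := (Nat.dvd_prime_pow Nat.prime_two).mp hd2
    have hj0 : j = 0 := by
      by_contra hne
      apply hnd
      refine dvd_trans ?_ hidx
      rw [hj]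
      exact dvd_pow_self 2 hne
    rw [hj0, pow_zero] at hj
    exact Subgroup.index_eq_one.mp hj
  have hmap : P.map q = P' := by
    apply le_antisymm
    · rintro _ ⟨x, ⟨t, _, rfl⟩, rfl⟩
      exact t.2
    · intro y hy
      have h1 : (⟨y, hy⟩ : P') ∈ (T : Subgroup (P'.comap q)).map (q.subgroupComap P') := by
        rw [hTtop]
        exact Subgroup.mem_top _
      obtain ⟨t, ht, hty⟩ := h1
      refine ⟨(t : G), ⟨t, ht, rfl⟩, ?_⟩
      have := congrArg Subtype.val hty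
      exact this
  have hPne : P ≠ ⊥ := by
    intro h
    rw [h, Subgroup.map_bot] at hmap
    exact hP' hmap.symm
  have hodd := hO P hPne hPp
  have h3 : ((Subgroup.normalizer (P : Set G)).map q).index ∣
      (Subgroup.normalizer (P : Set G)).index := Subgroup.index_map_dvd _ hqs
  have h4 : (Subgroup.normalizer (P : Set G)).map q ≤ Subgroup.normalizer (P' : Set (G ⧸ N)) := by
    rw [← hmap]
    exact Subgroup.le_normalizer_map q
  have h5 := Subgroup.index_dvd_of_le h4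
  exact hodd.of_dvd_nat (h5.trans h3)



end a_quot

section a_phi


theorem phi_normal (G : Type) [Group G] (R : Subgroup G) (hn : R.Normal) : (Phi R).Normal := by
  have := hn
  exact inferInstanceAs ((frattini R).map R.subtype).Normal

theorem phi_le (G : Type) [Group G] (R : Subgroup G) : Phi R ≤ R := by
  rintro _ ⟨x, _, rfl⟩
  exact x.2

theorem phi_sq (G : Type) [Group G] [Finite G] (R : Subgroup G) (hR : IsPGroup 2 R) (hd : Ded R)
    (r : G) (hr : r ∈ R) : r ^ 2 ∈ Phi R := by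
  have key : (⟨r, hr⟩ : R) ^ 2 ∈ frattini R := by
    unfold frattini Order.radical
    simp only [Subgroup.mem_iInf, Set.mem_ofPred_eq]
    intro M hM
    have hMn : M.Normal := by
      constructor
      intro n hn g
      have h1 := hd (M.map R.subtype) (by rintro _ ⟨x, _, rfl⟩; exact x.2) g g.2 n
        ⟨n, hn, rfl⟩
      obtain ⟨y, hy, hy2⟩ := h1
      have : y = g * n * g⁻¹ := by
        apply Subtype.ext
        simpa using hy2
      rw [← this]; exact hy
    set x : R := ⟨r, hr⟩ with hx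
    -- consider the subgroup generated by M and x^2
    by_contra hcon
    have hlt : M < M ⊔ Subgroup.zpowers (x ^ 2) := by
      refine lt_of_le_of_ne le_sup_left ?_
      intro h
      apply hcon
      rw [h]
      exact (le_sup_right : Subgroup.zpowers (x ^ 2) ≤ _) (Subgroup.mem_zpowers _)
    have htop : M ⊔ Subgroup.zpowers (x ^ 2) = ⊤ := hM.2 _ hlt
    have hxm : x ∈ M ⊔ Subgroup.zpowers (x ^ 2) := by rw [htop]; trivial
    rw [Subgroup.mem_sup_of_normal_left] at hxm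
    obtain ⟨y, hy, z, hz, hyz⟩ := hxm
    obtain ⟨k, hk⟩ := Subgroup.mem_zpowers_iff.mp hz
    have hxy : x ^ (1 - 2 * k) ∈ M := by
      have : x ^ (1 - 2 * k) = y := by
        have h2 : z = x ^ (2 * k) := by
          rw [← hk, zpow_mul]; norm_cast
        rw [zpow_sub, zpow_one, ← h2, ← hyz]
        group
      rw [this]; exact hy
    obtain ⟨n, hn⟩ := hR x
    -- coprimality
    have hcop : IsCoprime ((1 - 2 * k : ℤ)) ((2:ℤ) ^ n) := by
      apply IsCoprime.pow_right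
      exact ⟨1, k, by ring⟩
    obtain ⟨u, v, huv⟩ := hcop
    have hxM : x ∈ M := by
      have h3 : x = (x ^ (1 - 2 * k)) ^ u * (x ^ (2 ^ n)) ^ v := by
        have : x = x ^ (u * (1 - 2 * k) + v * 2 ^ n) := by rw [huv, zpow_one]
        conv_lhs => rw [this]
        rw [zpow_add, mul_comm u, zpow_mul, mul_comm v, zpow_mul]
        norm_cast
      rw [h3, hn, one_zpow, mul_one]
      exact M.zpow_mem hxy u
    exact hcon (M.pow_mem hxM 2)
  exact ⟨_, key, by simp⟩

theorem phi_comm (G : Type) [Group G] [Finite G] (R : Subgroup G) (hn : R.Normal) (hR : IsPGroup 2 R) (hd : Ded R)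
    (r s : G) (hr : r ∈ R) (hs : s ∈ R) : r * s * r⁻¹ * s⁻¹ ∈ Phi R := by
  have hN := phi_normal G R hn
  have h1 := phi_sq G R hR hd (r * s) (R.mul_mem hr hs)
  have h2 := phi_sq G R hR hd (s⁻¹ * r⁻¹ * s) (R.mul_mem (R.mul_mem (R.inv_mem hs) (R.inv_mem hr)) hs)
  have h3 := phi_sq G R hR hd s⁻¹ (R.inv_mem hs)
  have : r * s * r⁻¹ * s⁻¹ = (r * s) ^ 2 * (s⁻¹ * r⁻¹ * s) ^ 2 * (s⁻¹) ^ 2 := by
    simp only [pow_two]
    group
  rw [this]
  exact (Phi R).mul_mem ((Phi R).mul_mem h1 h2) h3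


end a_phi

section a_key


theorem key1_le_sylow (G : Type) [Group G] [Finite G] (R : Subgroup G) (hn : R.Normal)
    (hR : IsPGroup 2 R) (S : Sylow 2 G) : R ≤ (S : Subgroup G) := by
  obtain ⟨Q, hQ⟩ := hR.exists_le_sylow
  obtain ⟨g, hg⟩ := MulAction.exists_smul_eq G Q S
  intro r hr
  have h1 : g⁻¹ * r * g⁻¹⁻¹ ∈ R := hn.conj_mem r hr g⁻¹
  have h2 : g⁻¹ * r * g ∈ (Q : Subgroup G) := by
    rw [inv_inv] at h1
    exact hQ h1
  rw [← hg, Sylow.coe_subgroup_smul]
  have h3 := Subgroup.smul_mem_pointwise_smul _ (MulAut.conj g) _ h2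
  have e : (MulAut.conj g) • (g⁻¹ * r * g) = r := by
    rw [MulAut.smul_def, MulAut.conj_apply]
    group
  rwa [e] at h3

/-- key1 -/
theorem key1 (G : Type) [Group G] [Finite G] (R : Subgroup G) (hn : R.Normal)
    (hR : IsPGroup 2 R) (hPn : (Phi R).Normal)
    (hconj : ∀ (P : Subgroup G), IsPGroup 2 P → ∀ S : Sylow 2 G,
      ∃ g : G, (∀ h ∈ P, g * h * g⁻¹ ∈ (S : Subgroup G)) ∧
        ∀ s ∈ (S : Subgroup G), ∀ h ∈ P, (g⁻¹ * s * g) * h * (g⁻¹ * s * g)⁻¹ ∈ P)
    (hcomm : ∀ r ∈ R, ∀ s ∈ R, r * s * r⁻¹ * s⁻¹ ∈ Phi R)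
    (x : G) (hx : x ^ 2 ∈ R) (r0 : G) (hr0 : r0 ∈ R) (h : r0 * x * r0⁻¹ * x⁻¹ ∉ Phi R) :
    ∃ g : G, ∃ x' r' : G, x' = g * x * g⁻¹ ∧ r' = g * r0 * g⁻¹ ∧ r' ∈ R ∧ x' ^ 2 ∈ R ∧
      r' * x' * r'⁻¹ * x'⁻¹ ∉ Phi R ∧
      ∀ r ∈ R, ∃ k : ℤ, r * x' * r⁻¹ * x'⁻¹ = (x' ^ 2) ^ k := by
  have hP : IsPGroup 2 (Subgroup.zpowers x) := by
    obtain ⟨n, hn2⟩ := hR ⟨x ^ 2, hx⟩
    have h1 : (x ^ 2) ^ (2 ^ n) = 1 := by
      have := congrArg Subtype.val hn2
      simpa using this
    rintro ⟨y, hy⟩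
    obtain ⟨z, rfl⟩ := Subgroup.mem_zpowers_iff.mp hy
    refine ⟨n + 1, ?_⟩
    apply Subtype.ext
    show (x ^ z) ^ (2 ^ (n + 1)) = 1
    rw [← zpow_natCast, ← zpow_mul, mul_comm, zpow_mul, zpow_natCast, pow_succ', pow_mul, h1,
      one_zpow]
  obtain ⟨S⟩ : Nonempty (Sylow 2 G) := inferInstance
  obtain ⟨g, hg1, hg2⟩ := hconj (Subgroup.zpowers x) hP S
  have hRS := key1_le_sylow G R hn hR S
  have hr' : g * r0 * g⁻¹ ∈ R := hn.conj_mem r0 hr0 g
  have hx2 : (g * x * g⁻¹) ^ 2 ∈ R := by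
    rw [conj_pow]
    exact hn.conj_mem _ hx g
  have hnot : (g * r0 * g⁻¹) * (g * x * g⁻¹) * (g * r0 * g⁻¹)⁻¹ * (g * x * g⁻¹)⁻¹ ∉ Phi R := by
    intro hc
    apply h
    have h1 := hPn.conj_mem _ hc g⁻¹
    have e : g⁻¹ * ((g * r0 * g⁻¹) * (g * x * g⁻¹) * (g * r0 * g⁻¹)⁻¹ * (g * x * g⁻¹)⁻¹) * g⁻¹⁻¹ =
        r0 * x * r0⁻¹ * x⁻¹ := by group
    rwa [e] at h1
  refine ⟨g, g * x * g⁻¹, g * r0 * g⁻¹, rfl, rfl, hr', hx2, hnot, ?_⟩
  intro r hr
  have h1 := hg2 r (hRS hr) x (Subgroup.mem_zpowers x)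
  obtain ⟨z, hz⟩ := Subgroup.mem_zpowers_iff.mp h1
  set x' := g * x * g⁻¹ with hx'
  have h2 : r * x' * r⁻¹ = x' ^ z := by
    have e1 : x' ^ z = g * x ^ z * g⁻¹ := by
      rw [hx', conj_zpow]
    rw [e1, hz, hx']
    group
  have h3 : r * x' * r⁻¹ * x'⁻¹ = x' ^ (z - 1) := by
    rw [h2, zpow_sub_one]
  have hcR : r * x' * r⁻¹ * x'⁻¹ ∈ R := by
    have e : r * x' * r⁻¹ * x'⁻¹ = r * (x' * r⁻¹ * x'⁻¹) := by group
    rw [e]
    exact R.mul_mem hr (hn.conj_mem _ (R.inv_mem hr) x')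
  have hx'R : x' ∉ R := fun hc => hnot (hcomm _ hr' _ hc)
  rcases Int.even_or_odd (z - 1) with he | ho
  · obtain ⟨k, hk⟩ := he
    refine ⟨k, ?_⟩
    rw [h3, hk, ← two_mul, zpow_mul]
    norm_cast
  · exfalso
    obtain ⟨k, hk⟩ := ho
    rw [h3, hk, zpow_add_one, zpow_mul] at hcR
    have h4 : (x' ^ (2:ℤ)) ^ k ∈ R := by
      have e : x' ^ (2:ℤ) = x' ^ 2 := by norm_cast
      rw [e]
      exact R.zpow_mem hx2 k
    exact hx'R ((Subgroup.mul_mem_cancel_left R h4).mp hcR)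

theorem thmA (G : Type) [Group G] [Finite G] (R : Subgroup G) (hn : R.Normal)
    (hR : IsPGroup 2 R) (hPn : (Phi R).Normal) (hPle : Phi R ≤ R)
    (hconj : ∀ (P : Subgroup G), IsPGroup 2 P → ∀ S : Sylow 2 G,
      ∃ g : G, (∀ h ∈ P, g * h * g⁻¹ ∈ (S : Subgroup G)) ∧
        ∀ s ∈ (S : Subgroup G), ∀ h ∈ P, (g⁻¹ * s * g) * h * (g⁻¹ * s * g)⁻¹ ∈ P)
    (hcomm : ∀ r ∈ R, ∀ s ∈ R, r * s * r⁻¹ * s⁻¹ ∈ Phi R)
    (hsq : ∀ r ∈ R, r ^ 2 ∈ Phi R)
    (x : G) (hx : x ^ 2 ∈ R) (r0 : G) (hr0 : r0 ∈ R) : r0 * x * r0⁻¹ * x⁻¹ ∈ Phi R := by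
  have claim : ∀ x : G, x ^ 2 ∈ R → ∀ r ∈ R, r * x * r⁻¹ * x⁻¹ ∉ Phi R → x ^ 2 ∉ Phi R := by
    intro x hx r hr h hx2
    obtain ⟨g, x', r', e1, e2, hr', hx'2, hnot, hall⟩ :=
      key1 G R hn hR hPn hconj hcomm x hx r hr h
    obtain ⟨k, hk⟩ := hall r' hr'
    apply hnot
    rw [hk]
    refine (Phi R).zpow_mem ?_ k
    rw [e1, conj_pow]
    exact hPn.conj_mem _ hx2 g
  by_contra h
  obtain ⟨g, x', r', e1, e2, hr', hx'2, hnot, hall⟩ :=
    key1 G R hn hR hPn hconj hcomm x hx r0 hr0 h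
  obtain ⟨k, hk⟩ := hall r' hr'
  have hsq' : (x' ^ 2) ^ 2 ∈ Phi R := hsq _ hx'2
  rcases Int.even_or_odd k with he | ho
  · obtain ⟨j, hj⟩ := he
    apply hnot
    rw [hk, hj, ← two_mul, zpow_mul]
    have e : (x' ^ 2) ^ (2:ℤ) = (x' ^ 2) ^ 2 := by norm_cast
    rw [e]
    exact (Phi R).zpow_mem hsq' j
  · obtain ⟨j, hj⟩ := ho
    have hrx : r' * x' = (x' ^ 2) ^ k * x' * r' := by
      rw [← hk]
      group
    have hcx : x' * (x' ^ 2) ^ k = (x' ^ 2) ^ k * x' := by
      have : Commute x' ((x' ^ 2) ^ k) := ((Commute.refl x').pow_right 2).zpow_right k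
      exact this
    have hy2 : (x' * r') ^ 2 = (x' ^ 2) ^ (k + 1) * r' ^ 2 := by
      calc (x' * r') ^ 2 = x' * (r' * x') * r' := by rw [pow_two]; group
        _ = x' * ((x' ^ 2) ^ k * x' * r') * r' := by rw [hrx]
        _ = (x' * (x' ^ 2) ^ k) * x' * (r' * r') := by simp only [mul_assoc]
        _ = ((x' ^ 2) ^ k * x') * x' * (r' * r') := by rw [hcx]
        _ = (x' ^ 2) ^ k * (x' ^ 2) * r' ^ 2 := by rw [pow_two r', pow_two x']; simp only [mul_assoc]
        _ = (x' ^ 2) ^ (k + 1) * r' ^ 2 := by rw [zpow_add_one]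
    have hyP : (x' * r') ^ 2 ∈ Phi R := by
      rw [hy2]
      refine (Phi R).mul_mem ?_ (hsq r' hr')
      have e : k + 1 = 2 * (j + 1) := by rw [hj]; ring
      rw [e, zpow_mul]
      have e' : (x' ^ 2) ^ (2:ℤ) = (x' ^ 2) ^ 2 := by norm_cast
      rw [e']
      exact (Phi R).zpow_mem hsq' _
    have hcy : r' * (x' * r') * r'⁻¹ * (x' * r')⁻¹ ∉ Phi R := by
      have e : r' * (x' * r') * r'⁻¹ * (x' * r')⁻¹ = r' * x' * r'⁻¹ * x'⁻¹ := by group
      rw [e]
      exact hnot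
    exact claim (x' * r') (hPle hyP) r' hr' hcy hyP


end a_key

section a_cent


theorem cent_pgroup (G : Type) [Group G] [Finite G] (R : Subgroup G) (hn : R.Normal)
    (hR : IsPGroup 2 R) (hPn : (Phi R).Normal)
    (hC : ∀ g : G, (∀ r ∈ R, g * r = r * g) → g ∈ R)
    (C : Subgroup G) (hCm : ∀ g ∈ C, ∀ r ∈ R, r * g * r⁻¹ * g⁻¹ ∈ Phi R) :
    IsPGroup 2 C := by
  have hPR : Phi R ≤ R := by
    intro x hx
    obtain ⟨y, _, rfl⟩ := hx
    exact y.2
  have hP2 : IsPGroup 2 (Phi R) := hR.to_le hPR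
  have : Fact (Nat.Prime 2) := ⟨Nat.prime_two⟩
  obtain ⟨n, hn2⟩ := IsPGroup.iff_card.1 hP2
  have hpow : ∀ q : ℕ, q.Prime → ∀ k : ℕ, q ∣ 2 ^ k → q = 2 := by
    intro q hq k h
    exact (Nat.prime_dvd_prime_iff_eq hq Nat.prime_two).1 (hq.dvd_of_dvd_pow h)
  rw [IsPGroup.iff_card]
  refine ⟨_, Nat.eq_prime_pow_of_unique_prime_dvd Nat.card_pos.ne' ?_⟩
  intro q hq hdvd
  by_contra hq2
  haveI : Fact q.Prime := ⟨hq⟩
  obtain ⟨a, ha⟩ := exists_prime_orderOf_dvd_card' q hdvd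
  set a' : G := (a : G) with ha'
  have ha'C : a' ∈ C := a.2
  have hord : orderOf a' = q := by
    rw [ha', Subgroup.orderOf_coe, ha]
  have hcomm : ∀ r ∈ R, a' * r = r * a' := by
    have hF : (Subgroup.centralizer {a'}).subgroupOf R = ⊤ := by
      apply frattini_nongenerating
      rw [eq_top_iff]
      intro r _
      -- the set
      let X := {t : G // (r : G)⁻¹ * t ∈ Phi R}
      let e : X ≃ Phi R :=
        { toFun := fun t => ⟨(r : G)⁻¹ * t.1, t.2⟩
          invFun := fun f => ⟨(r : G) * f.1, by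
            rw [inv_mul_cancel_left]
            exact f.2⟩
          left_inv := fun t => Subtype.ext (by simp)
          right_inv := fun f => Subtype.ext (by simp) }
      have hcard : Nat.card X = 2 ^ n := by
        rw [Nat.card_congr e, hn2]
      have hact : ∀ b ∈ C, ∀ t : X, (r : G)⁻¹ * (b * t.1 * b⁻¹) ∈ Phi R := by
        intro b hb t
        have h1 := hCm b hb (r : G)⁻¹ (inv_mem r.2)
        have h2 := hPn.conj_mem _ t.2 b
        have h3 := mul_mem h1 h2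
        have h4 : (r : G)⁻¹ * b * ((r : G)⁻¹)⁻¹ * b⁻¹ * (b * ((r : G)⁻¹ * t.1) * b⁻¹)
            = (r : G)⁻¹ * (b * t.1 * b⁻¹) := by group
        rw [h4] at h3
        exact h3
      have hz : Subgroup.zpowers a' ≤ C := by
        rw [Subgroup.zpowers_le]
        exact ha'C
      letI : MulAction (Subgroup.zpowers a') X :=
        { smul := fun b t => ⟨b.1 * t.1 * b.1⁻¹, hact b.1 (hz b.2) t⟩
          one_smul := fun t => Subtype.ext (by
            change (1 : G) * t.1 * (1 : G)⁻¹ = t.1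
            simp)
          mul_smul := fun b c t => Subtype.ext (by
            change (b.1 * c.1) * t.1 * (b.1 * c.1)⁻¹ = b.1 * (c.1 * t.1 * c.1⁻¹) * b.1⁻¹
            group) }
      have hA : IsPGroup q (Subgroup.zpowers a') := by
        apply IsPGroup.of_card (n := 1)
        rw [Nat.card_zpowers, hord, pow_one]
      obtain ⟨t, ht⟩ := hA.nonempty_fixed_point_of_prime_not_dvd_card X (by
        rw [hcard]
        intro h
        exact hq2 (hpow q hq n h))
      have ht1 := ht ⟨a', Subgroup.mem_zpowers a'⟩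
      have ht2 : a' * t.1 * a'⁻¹ = t.1 := congrArg Subtype.val ht1
      have ht3 : a' * t.1 = t.1 * a' := by
        rw [mul_inv_eq_iff_eq_mul] at ht2
        exact ht2
      have htR : t.1 ∈ R := by
        have := mul_mem r.2 (hPR t.2)
        simpa using this
      obtain ⟨f, hf, hf2⟩ := t.2
      have hr : r = (⟨t.1, htR⟩ : R) * f⁻¹ := by
        apply Subtype.ext
        change (r : G) = t.1 * (f : G)⁻¹
        have : (f : G) = (r : G)⁻¹ * t.1 := hf2
        rw [this]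
        group
      rw [hr]
      apply Subgroup.mul_mem_sup
      · rw [Subgroup.mem_subgroupOf, Subgroup.mem_centralizer_singleton_iff]
        first
          | exact ht3
          | exact ht3.symm
      · exact inv_mem hf
    intro r hr
    have h1 : (⟨r, hr⟩ : R) ∈ (Subgroup.centralizer {a'}).subgroupOf R := by
      rw [hF]
      trivial
    rw [Subgroup.mem_subgroupOf, Subgroup.mem_centralizer_singleton_iff] at h1
    first
      | exact h1
      | exact h1.symm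
  have haR : a' ∈ R := hC a' hcomm
  obtain ⟨k, hk⟩ := hR ⟨a', haR⟩
  have hk2 : a' ^ 2 ^ k = 1 := congrArg Subtype.val hk
  have := orderOf_dvd_of_pow_eq_one hk2
  rw [hord] at this
  exact hq2 (hpow q hq k this)


end a_cent

section a_core


theorem core (G : Type) [Group G] [Finite G] (R : Subgroup G) (hPn : (Phi R).Normal)
    (hR : IsGreatest {N : Subgroup G | N.Normal ∧ IsPGroup 2 N} R)
    (hA : ∀ x : G, x ^ 2 ∈ R → ∀ r ∈ R, r * x * r⁻¹ * x⁻¹ ∈ Phi R)
    (hcent : ∀ C : Subgroup G, (∀ g ∈ C, ∀ r ∈ R, r * g * r⁻¹ * g⁻¹ ∈ Phi R) → IsPGroup 2 C)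
    (S : Sylow 2 G) : (S : Subgroup G) = R := by
  have hRn : R.Normal := hR.1.1
  have hR2 : IsPGroup 2 R := hR.1.2
  have hRS : R ≤ (S : Subgroup G) := by
    have h1 : IsPGroup 2 (R ⊔ (S : Subgroup G) : Subgroup G) := hR2.to_sup_of_normal_left S.isPGroup'
    have h2 := S.is_maximal' h1 le_sup_right
    rw [← h2]
    exact le_sup_left
  by_contra hne
  -- an element of order two modulo `R`
  have hex : ∃ x : G, x ∉ R ∧ x ^ 2 ∈ R := by
    have hq : IsPGroup 2 ((S : Subgroup G) ⧸ R.subgroupOf (S : Subgroup G)) := S.isPGroup'.to_quotient _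
    obtain ⟨n, hn⟩ := IsPGroup.iff_card.1 hq
    have hn0 : n ≠ 0 := by
      rintro rfl
      rw [pow_zero] at hn
      have h3 : (R.subgroupOf (S : Subgroup G)).index = 1 := hn
      rw [Subgroup.index_eq_one, Subgroup.subgroupOf_eq_top] at h3
      exact hne (le_antisymm h3 hRS)
    have hdvd : 2 ∣ Nat.card ((S : Subgroup G) ⧸ R.subgroupOf (S : Subgroup G)) := by
      rw [hn]
      exact dvd_pow_self 2 hn0
    obtain ⟨q, hq2⟩ := exists_prime_orderOf_dvd_card' 2 hdvd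
    obtain ⟨s, rfl⟩ := QuotientGroup.mk_surjective q
    refine ⟨s.1, ?_, ?_⟩
    · intro hs
      have h4 : ((s : (S : Subgroup G)) : (S : Subgroup G) ⧸ R.subgroupOf (S : Subgroup G)) = 1 := by
        rw [QuotientGroup.eq_one_iff]
        exact hs
      rw [h4, orderOf_one] at hq2
      norm_num at hq2
    · have h5 := pow_orderOf_eq_one ((s : (S : Subgroup G)) : (S : Subgroup G) ⧸ R.subgroupOf (S : Subgroup G))
      rw [hq2] at h5
      have h6 : (((s ^ 2 : (S : Subgroup G))) : (S : Subgroup G) ⧸ R.subgroupOf (S : Subgroup G)) = 1 := h5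
      rw [QuotientGroup.eq_one_iff] at h6
      exact h6
  obtain ⟨x, hx, hx2⟩ := hex
  let C : Subgroup G := 
    { carrier := {g | ∀ r ∈ R, r * g * r⁻¹ * g⁻¹ ∈ Phi R}
      one_mem' := by
        intro r _
        have : r * 1 * r⁻¹ * 1⁻¹ = 1 := by group
        rw [this]
        exact one_mem _
      mul_mem' := by
        intro g h hg hh r hr
        have : r * (g * h) * r⁻¹ * (g * h)⁻¹ = (r * g * r⁻¹ * g⁻¹) * (g * (r * h * r⁻¹ * h⁻¹) * g⁻¹) := by group
        rw [this]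
        exact mul_mem (hg r hr) (hPn.conj_mem _ (hh r hr) g)
      inv_mem' := by
        intro g hg r hr
        have : r * g⁻¹ * r⁻¹ * g⁻¹⁻¹ = g⁻¹ * (r * g * r⁻¹ * g⁻¹)⁻¹ * g⁻¹⁻¹ := by group
        rw [this]
        exact hPn.conj_mem _ (inv_mem (hg r hr)) g⁻¹ }
  have hCn : C.Normal := by
    constructor
    intro g hg k r hr
    have : r * (k * g * k⁻¹) * r⁻¹ * (k * g * k⁻¹)⁻¹ = 
        k * ((k⁻¹ * r * k⁻¹⁻¹) * g * (k⁻¹ * r * k⁻¹⁻¹)⁻¹ * g⁻¹) * k⁻¹ := by group
    rw [this]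
    exact hPn.conj_mem _ (hg _ (hRn.conj_mem r hr k⁻¹)) k
  have hC2 : IsPGroup 2 C := hcent C (fun g hg => hg)
  have hCR : C ≤ R := hR.2 ⟨hCn, hC2⟩
  exact hx (hCR (fun r hr => hA x hx2 r hr))



end a_core

section a_corr


theorem corr (G : Type) [Group G] [Finite G] (O R : Subgroup G) [O.Normal]
    (hO : IsGreatest {N : Subgroup G | N.Normal ∧ Odd (Nat.card N)} O)
    (hR : IsGreatest {N : Subgroup G | N.Normal ∧ O ≤ N ∧ ∃ n : ℕ, O.relIndex N = 2 ^ n} R) :
    IsGreatest {N : Subgroup (G ⧸ O) | N.Normal ∧ IsPGroup 2 N} (R.map (QuotientGroup.mk' O)) ∧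
      ∀ N : Subgroup (G ⧸ O), N.Normal → Odd (Nat.card N) → N = ⊥ := by
  have hsurj : Function.Surjective (QuotientGroup.mk' O) := QuotientGroup.mk'_surjective O
  have hrel : ∀ K : Subgroup G, O.relIndex K = Nat.card (K.map (QuotientGroup.mk' O)) := by
    intro K
    have := Subgroup.relIndex_ker (QuotientGroup.mk' O) (K := K)
    rw [QuotientGroup.ker_mk'] at this
    exact this
  obtain ⟨⟨hRn, hOR, n, hn⟩, hRmax⟩ := hR
  obtain ⟨⟨hOn, hOodd⟩, hOmax⟩ := hO
  refine ⟨⟨⟨hRn.map _ hsurj, ?_⟩, ?_⟩, ?_⟩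
  · apply IsPGroup.of_card (n := n)
    rw [← hrel, hn]
  · rintro N' ⟨hN'n, hN'p⟩
    have h1 : N'.comap (QuotientGroup.mk' O) ≤ R := by
      apply hRmax
      refine ⟨hN'n.comap _, QuotientGroup.le_comap_mk' O N', ?_⟩
      rw [hrel, Subgroup.map_comap_eq_self_of_surjective hsurj]
      exact IsPGroup.iff_card.mp hN'p
    have h2 := Subgroup.map_mono (f := QuotientGroup.mk' O) h1
    rwa [Subgroup.map_comap_eq_self_of_surjective hsurj] at h2
  · intro N' hN'n hN'odd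
    have h1 : N'.comap (QuotientGroup.mk' O) ≤ O := by
      apply hOmax
      refine ⟨hN'n.comap _, ?_⟩
      have h3 := Subgroup.card_mul_index (O.subgroupOf (N'.comap (QuotientGroup.mk' O)))
      have h4 : Nat.card (O.subgroupOf (N'.comap (QuotientGroup.mk' O))) = Nat.card O :=
        Nat.card_congr (Subgroup.subgroupOfEquivOfLe (QuotientGroup.le_comap_mk' O N')).toEquiv
      have h5 : (O.subgroupOf (N'.comap (QuotientGroup.mk' O))).index = Nat.card N' := by
        have := hrel (N'.comap (QuotientGroup.mk' O))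
        rw [Subgroup.map_comap_eq_self_of_surjective hsurj] at this
        exact this
      rw [← h3, h4, h5]
      exact hOodd.mul hN'odd
    have h2 := Subgroup.map_mono (f := QuotientGroup.mk' O) h1
    rw [Subgroup.map_comap_eq_self_of_surjective hsurj] at h2
    rw [eq_bot_iff]
    refine h2.trans ?_
    rw [Subgroup.map_le_iff_le_comap]
    intro x hx
    simp only [Subgroup.mem_comap, QuotientGroup.mk'_apply, Subgroup.mem_bot]
    exact (QuotientGroup.eq_one_iff x).mpr hx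


end a_corr

section a_exOR


theorem exists_O (G : Type) [Group G] [Finite G] :
    ∃ O : Subgroup G, IsGreatest {N : Subgroup G | N.Normal ∧ Odd (Nat.card N)} O := by
  obtain ⟨N, hN, hmax⟩ := Set.exists_max_image {N : Subgroup G | N.Normal ∧ Odd (Nat.card N)}
    (fun N => Nat.card N) (Set.toFinite _) ⟨⊥, by
      refine ⟨inferInstance, ?_⟩
      rw [Subgroup.card_bot]; exact odd_one⟩
  refine ⟨N, hN, ?_⟩
  rintro M ⟨hM1, hM2⟩
  obtain ⟨hN1, hN2⟩ := hN
  have h1 : Nat.card (N ⊔ M : Subgroup G) = Nat.card N * N.relIndex M := by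
    have h2 := Subgroup.relIndex_mul_relIndex (⊥ : Subgroup G) N (N ⊔ M) bot_le le_sup_left
    rw [Subgroup.relIndex_bot_left, Subgroup.relIndex_bot_left] at h2
    rw [← h2, sup_comm, Subgroup.relIndex_sup_right]
  have h3 : Odd (N.relIndex M) := Odd.of_dvd_nat hM2 (Subgroup.relIndex_dvd_card N M)
  have h4 : (N ⊔ M) ∈ {N : Subgroup G | N.Normal ∧ Odd (Nat.card N)} := by
    refine ⟨Subgroup.sup_normal N M, ?_⟩
    rw [h1]
    exact hN2.mul h3
  have h5 : N = N ⊔ M := Subgroup.eq_of_le_of_card_ge le_sup_left (hmax _ h4)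
  rw [h5]
  exact le_sup_right

theorem exists_R (G : Type) [Group G] [Finite G] (O : Subgroup G) (hn : O.Normal) :
    ∃ R : Subgroup G, IsGreatest {N : Subgroup G | N.Normal ∧ O ≤ N ∧ ∃ n : ℕ, O.relIndex N = 2 ^ n} R := by
  obtain ⟨N, hN, hmax⟩ := Set.exists_max_image {N : Subgroup G | N.Normal ∧ O ≤ N ∧ ∃ n : ℕ, O.relIndex N = 2 ^ n}
    (fun N => Nat.card N) (Set.toFinite _) ⟨O, by
      refine ⟨hn, le_refl _, 0, ?_⟩
      rw [Subgroup.relIndex_self]; rfl⟩
  refine ⟨N, hN, ?_⟩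
  rintro M ⟨hM1, hM2, m, hM3⟩
  obtain ⟨hN1, hN2, n, hN3⟩ := hN
  have h3 : N.relIndex M ∣ 2 ^ m := by
    rw [← hM3]
    exact Subgroup.relIndex_dvd_of_le_left M hN2
  obtain ⟨k, hk, hk2⟩ := (Nat.dvd_prime_pow Nat.prime_two).mp h3
  have h1 : O.relIndex (N ⊔ M) = 2 ^ n * 2 ^ k := by
    have h2 := Subgroup.relIndex_mul_relIndex O N (N ⊔ M) hN2 le_sup_left
    rw [← h2, sup_comm, Subgroup.relIndex_sup_right, hN3, hk2]
  have h4 : (N ⊔ M) ∈ {N : Subgroup G | N.Normal ∧ O ≤ N ∧ ∃ n : ℕ, O.relIndex N = 2 ^ n} := by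
    refine ⟨Subgroup.sup_normal N M, hN2.trans le_sup_left, n + k, ?_⟩
    rw [h1, pow_add]
  have h5 : N = N ⊔ M := Subgroup.eq_of_le_of_card_ge le_sup_left (hmax _ h4)
  rw [h5]
  exact le_sup_right


end a_exOR

section a_hh

section HH
open Pool.Agent.Helper128.AutDiv
/-- helper lemma, proved -/
lemma central_complement {X : Type*} [Group X] [Finite X] (Z : Subgroup X)
    (hZ : ∀ z ∈ Z, ∀ x : X, z * x = x * z) (hcop : (Nat.card Z).Coprime Z.index) :
    ∃ K : Subgroup X, (∀ x, x ∈ K ↔ (orderOf x).Coprime (Nat.card Z)) ∧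
      ∀ x, ∃ z ∈ Z, ∃ y ∈ K, x = z * y := by
  have hn : Z.Normal := ⟨fun z hz x => by rw [← hZ z hz x]; simpa using hz⟩
  obtain ⟨K, hK⟩ := Subgroup.exists_right_complement'_of_coprime hcop
  have hdec : ∀ x, ∃ z ∈ Z, ∃ y ∈ K, x = z * y := by
    intro x
    obtain ⟨⟨⟨z, hz⟩, ⟨y, hy⟩⟩, h⟩ := hK.2 x
    exact ⟨z, hz, y, hy, h.symm⟩
  refine ⟨K, fun x => ⟨fun hx => ?_, fun hx => ?_⟩, hdec⟩
  · have h1 : orderOf x ∣ Nat.card K := Subgroup.orderOf_dvd_natCard K hx
    have h2 : Nat.card K = Z.index := hK.symm.index_eq_card.symm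
    rw [h2] at h1
    exact (Nat.Coprime.coprime_dvd_right h1 hcop).symm
  · obtain ⟨z, hz, y, hy, rfl⟩ := hdec x
    have h1 : z * y = y * z := hZ z hz y
    have h2 : (z * y) ^ orderOf (z * y) = 1 := pow_orderOf_eq_one _
    have hcomm : Commute z y := h1
    rw [hcomm.mul_pow] at h2
    have h3 : z ^ orderOf (z * y) ∈ Z ⊓ K := by
      refine ⟨Z.pow_mem hz _, ?_⟩
      rw [eq_inv_of_mul_eq_one_left h2]
      exact K.inv_mem (K.pow_mem hy _)
    rw [hK.disjoint.eq_bot, Subgroup.mem_bot] at h3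
    have h4 : orderOf z ∣ orderOf (z * y) := orderOf_dvd_of_pow_eq_one h3
    have h5 : orderOf z ∣ Nat.card Z := Subgroup.orderOf_dvd_natCard Z hz
    have h6 : orderOf z = 1 := Nat.eq_one_of_dvd_coprimes hx h4 h5
    rw [orderOf_eq_one_iff] at h6
    rw [h6, one_mul]; exact hy

theorem hh (G : Type) [Group G] [Finite G] (hrs : RSoluble 2 G)
    (h1 : ∀ N : Subgroup G, N.Normal → Odd (Nat.card N) → N = ⊥) (R : Subgroup G)
    (hR : IsGreatest {N : Subgroup G | N.Normal ∧ IsPGroup 2 N} R) :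
    ∀ g : G, (∀ r ∈ R, g * r = r * g) → g ∈ R := by
  classical
  obtain ⟨⟨hRn, hR2⟩, hRmax⟩ := hR
  haveI := hRn
  haveI hCn : (Subgroup.centralizer (R : Set G)).Normal := inferInstance
  set C : Subgroup G := Subgroup.centralizer (R : Set G) with hC
  suffices hCR : C ≤ R by
    intro g hg
    exact hCR (Subgroup.mem_centralizer_iff.mpr fun r hr => (hg r hr).symm)
  have hne : ({M : Subgroup G | M.Normal ∧ M ⊓ C ≤ R}).Nonempty :=
    ⟨⊥, inferInstance, by simp⟩
  obtain ⟨M, ⟨hMn, hMC⟩, hMmax⟩ :=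
    (Set.toFinite {M : Subgroup G | M.Normal ∧ M ⊓ C ≤ R}).exists_maximal hne
  by_cases hMt : M = ⊤
  · rw [hMt, top_inf_eq] at hMC
    exact hMC
  exfalso
  obtain ⟨N, hNn, hMN, hidx⟩ := hrs M hMn hMt
  haveI := hNn
  haveI := hMn
  have hDn : (N ⊓ C).Normal := Subgroup.normal_inf_normal N C
  have hDR : ¬ (N ⊓ C) ≤ R := fun h => absurd (hMmax ⟨hNn, h⟩ hMN.le) (not_le_of_gt hMN)
  have hZD : M ⊓ C ≤ (N ⊓ C) := inf_le_inf_right _ hMN.le
  have hrel : (M ⊓ C).relIndex (N ⊓ C) ∣ M.relIndex N := by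
    have e1 : M ⊓ C = M ⊓ (N ⊓ C) := by rw [← inf_assoc, inf_eq_left.mpr hMN.le]
    rw [e1, Subgroup.inf_relIndex_right, ← Subgroup.relIndex_sup_right]
    exact Dvd.intro _ (Subgroup.relIndex_mul_relIndex M ((N ⊓ C) ⊔ M) N le_sup_right
      (sup_le inf_le_left hMN.le))
  have hZ2 : IsPGroup 2 (M ⊓ C : Subgroup G) := hR2.to_le hMC
  set D : Subgroup G := N ⊓ C with hD
  set Z : Subgroup D := (M ⊓ C).subgroupOf D with hZ
  have hZidx : Z.index = (M ⊓ C).relIndex D := rfl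
  have hcardZ : Nat.card Z = Nat.card (M ⊓ C : Subgroup G) :=
    Nat.card_congr (Subgroup.subgroupOfEquivOfLe hZD).toEquiv
  have hmul : Nat.card Z * Z.index = Nat.card D := Subgroup.card_mul_index Z
  haveI : Fact (Nat.Prime 2) := ⟨Nat.prime_two⟩
  obtain ⟨a, ha⟩ := IsPGroup.iff_card.mp hZ2
  rcases hidx with ⟨n, hn⟩ | hodd
  · -- 2-power index
    rw [hn] at hrel
    obtain ⟨k, _, hk⟩ := (Nat.dvd_prime_pow Nat.prime_two).mp hrel
    refine hDR (hRmax ⟨hDn, IsPGroup.of_card (n := a + k) ?_⟩)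
    rw [← hmul, hcardZ, ha, hZidx, hk, pow_add]
  · -- odd index
    have hZodd : Z.index.Coprime 2 := by
      rw [hZidx]
      exact Nat.Coprime.coprime_dvd_left hrel hodd
    have hcop : (Nat.card Z).Coprime Z.index := by
      rw [hcardZ, ha]
      exact Nat.Coprime.pow_left a hZodd.symm
    have hcent : ∀ z ∈ Z, ∀ x : D, z * x = x * z := by
      intro z hz x
      have hzR : (z : G) ∈ R := hMC (Subgroup.mem_subgroupOf.mp hz)
      have hxC : (x : G) ∈ C := x.2.2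
      exact Subtype.ext (Subgroup.mem_centralizer_iff.mp hxC _ hzR)
    obtain ⟨K, hK1, hK2⟩ := central_complement Z hcent hcop
    have hKn : (K.map D.subtype).Normal := by
      constructor
      rintro _ ⟨x, hx, rfl⟩ g
      have hmem : g * (x : G) * g⁻¹ ∈ D := hDn.conj_mem _ x.2 g
      refine ⟨⟨g * (x : G) * g⁻¹, hmem⟩, ?_, rfl⟩
      have hx' := (hK1 x).mp hx
      refine (hK1 _).mpr ?_
      have ho : orderOf (⟨g * (x : G) * g⁻¹, hmem⟩ : D) = orderOf x := by
        rw [← Subgroup.orderOf_coe, ← Subgroup.orderOf_coe x]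
        show orderOf (g * (x : G) * g⁻¹) = _
        rw [← MulAut.conj_apply]
        exact MulEquiv.orderOf_eq (MulAut.conj g) (x : G)
      rw [ho]
      exact hx'
    have hKodd : Odd (Nat.card (K.map D.subtype)) := by
      rw [Nat.card_congr (Subgroup.equivMapOfInjective K D.subtype
        D.subtype_injective).toEquiv.symm]
      by_contra hne2
      rw [Nat.not_odd_iff_even] at hne2
      obtain ⟨x, hx⟩ := exists_prime_orderOf_dvd_card' (G := K) 2 hne2.two_dvd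
      have hx1 := (hK1 x).mp x.2
      rw [Subgroup.orderOf_coe, hx, hcardZ, ha] at hx1
      have ha0 : a = 0 := by
        by_contra hne0
        have := Nat.Coprime.coprime_dvd_right (dvd_pow_self 2 hne0) hx1
        norm_num at this
      rw [ha0, pow_zero] at ha
      rw [hcardZ, ha, one_mul] at hmul
      have h3 : 2 ∣ Nat.card D := hne2.two_dvd.trans (Subgroup.card_subgroup_dvd_card K)
      rw [← hmul] at h3
      have := Nat.Coprime.eq_one_of_dvd hZodd.symm h3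
      norm_num at this
    have hKbot := h1 _ hKn hKodd
    refine hDR fun x hx => ?_
    obtain ⟨z, hz, y, hy, hzy⟩ := hK2 ⟨x, hx⟩
    have hy1 : (y : G) ∈ K.map D.subtype := ⟨y, hy, rfl⟩
    rw [hKbot, Subgroup.mem_bot] at hy1
    have : x = (z : G) := by
      have := congrArg Subtype.val hzy
      simpa [hy1] using this
    rw [this]
    exact hMC (Subgroup.mem_subgroupOf.mp hz)


end HH

end a_hh

section a_back


theorem back (G : Type) [Group G] [Finite G] (O R : Subgroup G) [O.Normal] (hOdd : Odd (Nat.card O)) (hOR : O ≤ R)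
    (hRn : R.Normal)
    (hS1 : ∀ S : Sylow 2 (G ⧸ O), (S : Subgroup (G ⧸ O)) = R.map (QuotientGroup.mk' O))
    (hd : Ded (R.map (QuotientGroup.mk' O))) (S : Sylow 2 G) :
    Ded (S : Subgroup G) ∧ (S : Subgroup G) ⊔ O = R := by
  have hmap : (S : Subgroup G).map (QuotientGroup.mk' O) = R.map (QuotientGroup.mk' O) := by
    have h := hS1 (S.mapSurjective (QuotientGroup.mk'_surjective O))
    rwa [Sylow.coe_mapSurjective] at h
  constructor
  · intro H hH s hs h hh
    have hHR : H.map (QuotientGroup.mk' O) ≤ R.map (QuotientGroup.mk' O) := by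
      rw [← hmap]
      exact Subgroup.map_mono hH
    have hsR : QuotientGroup.mk' O s ∈ R.map (QuotientGroup.mk' O) := by
      rw [← hmap]
      exact Subgroup.mem_map_of_mem _ hs
    have h1 := hd (H.map (QuotientGroup.mk' O)) hHR (QuotientGroup.mk' O s) hsR
      (QuotientGroup.mk' O h) (Subgroup.mem_map_of_mem _ hh)
    obtain ⟨h', hh', he⟩ := Subgroup.mem_map.mp h1
    have he2 : QuotientGroup.mk' O h' = QuotientGroup.mk' O (s * h * s⁻¹) := by
      rw [he, map_mul, map_mul, map_inv]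
    have h3 : h'⁻¹ * (s * h * s⁻¹) ∈ O := QuotientGroup.eq.mp he2
    have h4 : h'⁻¹ * (s * h * s⁻¹) ∈ (S : Subgroup G) :=
      mul_mem (inv_mem (hH hh')) (mul_mem (mul_mem hs (hH hh)) (inv_mem hs))
    have h5 : (S : Subgroup G) ⊓ O = ⊥ := by
      apply disjoint_iff.mp
      apply Subgroup.disjoint_of_coprime_natCard
      obtain ⟨n, hn⟩ := IsPGroup.iff_card.mp S.isPGroup'
      rw [hn]
      exact Nat.Coprime.pow_left n hOdd.coprime_two_left
    have h6 : h'⁻¹ * (s * h * s⁻¹) ∈ (S : Subgroup G) ⊓ O := ⟨h4, h3⟩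
    rw [h5, Subgroup.mem_bot] at h6
    have h7 : s * h * s⁻¹ = h' := by
      have := congrArg (fun x => h' * x) h6
      simpa using this
    rw [h7]
    exact hh'
  · have h1 := Subgroup.comap_map_eq (QuotientGroup.mk' O) (S : Subgroup G)
    have h2 := Subgroup.comap_map_eq (QuotientGroup.mk' O) R
    rw [QuotientGroup.ker_mk'] at h1 h2
    rw [← h1, hmap, h2, sup_eq_left.mpr hOR]


end a_back
theorem hconj_of (G : Type) [Group G] [Finite G] (hO : PropertyO G) :
    ∀ (P : Subgroup G), IsPGroup 2 P → ∀ S : Sylow 2 G,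
      ∃ g : G, (∀ h ∈ P, g * h * g⁻¹ ∈ (S : Subgroup G)) ∧
        ∀ s ∈ (S : Subgroup G), ∀ h ∈ P, (g⁻¹ * s * g) * h * (g⁻¹ * s * g)⁻¹ ∈ P :=
  fun P hP S => exists_conj G hO P hP S

theorem normal_le_sylow (G : Type) [Group G] [Finite G] (R : Subgroup G) (hn : R.Normal)
    (hR : IsPGroup 2 R) (S : Sylow 2 G) : R ≤ (S : Subgroup G) := by
  obtain ⟨T, hT⟩ := hR.exists_le_sylow
  obtain ⟨g, hg⟩ := MulAction.exists_smul_eq G T S
  intro r hr
  rw [← hg]
  have h1 : g⁻¹ * r * g ∈ R := by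
    have := hn.conj_mem r hr g⁻¹
    simpa using this
  rw [Sylow.coe_subgroup_smul]
  rw [Subgroup.mem_pointwise_smul_iff_inv_smul_mem]
  have h2 : (MulAut.conj g)⁻¹ • r = g⁻¹ * r * g := by
    simp [← map_inv, MulAut.smul_def, MulAut.conj_apply]
  first
    | (rw [h2]; exact hT h1)
    | exact hT (by simpa [MulAut.smul_def] using h1)

theorem ded_normal (G : Type) [Group G] [Finite G] (hO : PropertyO G) (R : Subgroup G) (hn : R.Normal)
    (hR : IsPGroup 2 R) : Ded R := by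
  intro H hH s hs h hh
  have hH2 : IsPGroup 2 H := hR.to_le hH
  obtain ⟨S⟩ := (inferInstance : Nonempty (Sylow 2 G))
  obtain ⟨g, h1, h2⟩ := exists_conj G hO H hH2 S
  have hs' : g * s * g⁻¹ ∈ (S : Subgroup G) := normal_le_sylow G R hn hR S (hn.conj_mem s hs g)
  have h3 := h2 (g * s * g⁻¹) hs' h hh
  have h4 : g⁻¹ * (g * s * g⁻¹) * g = s := by group
  rwa [h4] at h3

theorem squares (G : Type) [Group G] [Finite G] (hO : PropertyO G) (R : Subgroup G) (hn : R.Normal)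
    (hR : IsPGroup 2 R) (x : G) (hx : x ^ 2 ∈ R) (r : G) (hr : r ∈ R) : r * x * r⁻¹ * x⁻¹ ∈ Phi R :=
  thmA G R hn hR (phi_normal G R hn) (phi_le G R) (hconj_of G hO)
    (fun r hr s hs => phi_comm G R hn hR (ded_normal G hO R hn hR) r s hr hs)
    (fun r hr => phi_sq G R hR (ded_normal G hO R hn hR) r hr) x hx r hr

theorem main_dir (G : Type) [Group G] [Finite G] (hO : PropertyO G) (h2 : TwoConstrained G)
    (O : Subgroup G) (hgO : IsGreatest {N : Subgroup G | N.Normal ∧ Odd (Nat.card N)} O)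
    (S : Sylow 2 G) : Ded (S : Subgroup G) ∧ ((S : Subgroup G) ⊔ O).Normal := by
  have hOn : O.Normal := hgO.1.1
  obtain ⟨R, hR⟩ := exists_R G O hOn
  obtain ⟨hR1, hbot⟩ := corr G O R hgO hR
  have hO1 : PropertyO (G ⧸ O) := propO_quot G hO O
  have hR1n : (R.map (QuotientGroup.mk' O)).Normal := hR1.1.1
  have hPn := phi_normal (G ⧸ O) (R.map (QuotientGroup.mk' O)) hR1n
  have hC : ∀ g : G ⧸ O, (∀ r ∈ R.map (QuotientGroup.mk' O), g * r = r * g) →
      g ∈ R.map (QuotientGroup.mk' O) := by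
    intro g hg
    obtain ⟨a, rfl⟩ := QuotientGroup.mk'_surjective O g
    refine ⟨a, h2 O R hgO hR a ?_, rfl⟩
    intro r hr
    have h3 := hg (QuotientGroup.mk' O r) ⟨r, hr, rfl⟩
    rw [← QuotientGroup.eq_one_iff]
    have h4 : QuotientGroup.mk' O (a * r * a⁻¹ * r⁻¹) = 1 := by
      rw [map_mul, map_mul, map_mul, map_inv, map_inv, h3]
      group
    exact h4
  have hS1 : ∀ S1 : Sylow 2 (G ⧸ O), (S1 : Subgroup (G ⧸ O)) = R.map (QuotientGroup.mk' O) :=
    fun S1 => core (G ⧸ O) _ hPn hR1 (fun x hx r hr => squares (G ⧸ O) hO1 _ hR1n hR1.1.2 x hx r hr)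
      (fun C hCm => cent_pgroup (G ⧸ O) _ hR1n hR1.1.2 hPn hC C hCm) S1
  obtain ⟨h5, h6⟩ := back G O R hgO.1.2 hR.1.2.1 hR.1.1 hS1 (ded_normal (G ⧸ O) hO1 _ hR1n hR1.1.2) S
  exact ⟨h5, by rw [h6]; exact hR.1.1⟩

theorem twoC_of_rs (G : Type) [Group G] [Finite G] (hrs : Pool.Agent.Helper128.AutDiv.RSoluble 2 G) :
    TwoConstrained G := by
  intro O R hgO hR g hg
  have hOn : O.Normal := hgO.1.1
  obtain ⟨hR1, hbot⟩ := corr G O R hgO hR
  have h1 := hh (G ⧸ O) (Pool.Agent.Helper128.AutDiv.rs_quot 2 G hrs O) hbot _ hR1 (QuotientGroup.mk' O g) ?_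
  · obtain ⟨a, ha, hag⟩ := h1
    have h3 : a⁻¹ * g ∈ O := QuotientGroup.eq.mp hag
    have h4 : a * (a⁻¹ * g) ∈ R := R.mul_mem ha (hR.1.2.1 h3)
    rwa [mul_inv_cancel_left] at h4
  · rintro _ ⟨r, hr, rfl⟩
    have h3 := hg r hr
    have h4 : QuotientGroup.mk' O (g * r * g⁻¹ * r⁻¹) = 1 := (QuotientGroup.eq_one_iff _).mpr h3
    rw [map_mul, map_mul, map_mul, map_inv, map_inv] at h4
    have h5 := mul_inv_eq_one.mp h4
    exact mul_inv_eq_iff_eq_mul.mp h5

theorem main_iff (G : Type) [Group G] [Finite G] (h2 : TwoConstrained G) :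
    PropertyO G ↔ ∀ S : Sylow 2 G, Ded (S : Subgroup G) := by
  refine ⟨fun hO S => ?_, propO_of_ded G⟩
  obtain ⟨O, hgO⟩ := exists_O G
  exact (main_dir G hO h2 O hgO S).1

end Pool.Agent.Helper128.OddIndex
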